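import Pool.Agent.H927.MG.SGoals

/-!
# Transport of derivations of the structure sheaf along isomorphisms of curves

A derivation of the coordinate ring of an affine open extends uniquely along etale homomorphisms, in
particular to smaller affine opens.  So compatible derivations on two charts give compatible derivations
on all affine opens of a separated scheme (glue), and these can be read off in other charts.
-/

set_option autoImplicit false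
set_option linter.style.haveILetI false

open AlgebraicGeometry CategoryTheory Limits Opposite TopologicalSpace
open scoped TensorProduct

namespace Pool.Agent.H200.MG927

open Pool.Agent.W523

/-! ### rings -/

/-- derivations extend along etale homomorphisms -/
theorem deriv_exists {A B : Type} [CommRing A] [CommRing B] (φ : A →+* B) (h : φ.Etale)
    (δ : Derivation ℤ A A) : ∃ δ' : Derivation ℤ B B, ∀ a, δ' (φ a) = φ (δ a) := by
  let _ := φ.toAlgebra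
  have : Algebra.Etale A B := h
  let e := KaehlerDifferential.tensorKaehlerEquivOfFormallyEtale ℤ A B
  let d1 : Derivation ℤ A B := (Algebra.linearMap A B).compDer δ
  let L : B ⊗[A] (Ω[A⁄ℤ]) →ₗ[B] B := d1.liftKaehlerDifferential.liftBaseChange B
  refine ⟨(L ∘ₗ e.symm.toLinearMap).compDer (KaehlerDifferential.D ℤ B), fun a => ?_⟩
  have h1 : e.symm (KaehlerDifferential.D ℤ B (φ a)) = 1 ⊗ₜ KaehlerDifferential.D ℤ A a :=
    KaehlerDifferential.tensorKaehlerEquivOfFormallyEtale_symm_D_algebraMap ℤ A B a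
  have h2 : L (1 ⊗ₜ KaehlerDifferential.D ℤ A a) = d1 a := by
    rw [LinearMap.liftBaseChange_one_tmul, Derivation.liftKaehlerDifferential_comp_D]
  have h3 : d1 a = φ (δ a) := rfl
  rw [← h3, ← h2, ← h1]
  rfl

/-- uniqueness of the extension -/
theorem deriv_unique {A B C : Type} [CommRing A] [CommRing B] [CommRing C] (φ : A →+* B)
    (h : φ.Etale) (ψ : B →+* C) (δB : Derivation ℤ B B) (δC : Derivation ℤ C C)
    (hAC : ∀ a, δC (ψ (φ a)) = ψ (δB (φ a))) (b : B) : δC (ψ b) = ψ (δB b) := by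
  let _ := φ.toAlgebra
  let _ := ψ.toAlgebra
  let _ := (ψ.comp φ).toAlgebra
  have : IsScalarTower A B C := IsScalarTower.of_algebraMap_eq (fun _ => rfl)
  have : Algebra.Etale A B := h
  have e1 : ∀ (a : A) (b : B), a • b = φ a * b := fun a b => Algebra.smul_def a b
  have e2 : ∀ (a : A) (c : C), a • c = ψ (φ a) * c := fun a c => Algebra.smul_def a c
  have e3 : ∀ (b : B) (c : C), b • c = ψ b * c := fun b c => Algebra.smul_def b c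
  let D : Derivation A B C := Derivation.mk'
    { toFun := fun b => δC (ψ b) - ψ (δB b)
      map_add' := fun x y => by simp only [map_add]; ring
      map_smul' := fun a b => by
        simp only [RingHom.id_apply]
        rw [e1, e2, map_mul, Derivation.leibniz, Derivation.leibniz, hAC]
        simp only [smul_eq_mul, map_add, map_mul]
        ring } (fun x y => by
        simp only [LinearMap.coe_mk, AddHom.coe_mk]
        rw [e3, e3, map_mul, Derivation.leibniz, Derivation.leibniz]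
        simp only [smul_eq_mul, map_add, map_mul]
        ring)
  have h4 : D b = 0 := by
    rw [← D.liftKaehlerDifferential_comp_D b, Subsingleton.elim (KaehlerDifferential.D A B b) 0,
      map_zero]
  have h5 : D b = δC (ψ b) - ψ (δB b) := rfl
  rw [h5] at h4
  exact sub_eq_zero.1 h4

/-! ### sections -/

section

variable {X : Scheme.{0}}

/-- restriction of sections -/
noncomputable def rs {U V : X.Opens} (h : V ≤ U) : Γ(X, U) →+* Γ(X, V) :=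
  (X.presheaf.map (homOfLE h).op).hom

theorem rs_rs {U V W : X.Opens} (h : V ≤ U) (h' : W ≤ V) (x : Γ(X, U)) :
    rs h' (rs h x) = rs (h'.trans h) x := by
  unfold rs
  rw [← CommRingCat.comp_apply, ← Functor.map_comp]
  rfl

theorem rs_self {U : X.Opens} (h : U ≤ U) (x : Γ(X, U)) : rs h x = x := by
  unfold rs
  have h1 : (homOfLE h).op = 𝟙 (op U) := rfl
  rw [h1, X.presheaf.map_id]
  rfl

theorem rs_etale {U V : X.Opens} (hU : IsAffineOpen U) (hV : IsAffineOpen V) (h : V ≤ U) :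
    (rs h).Etale := by
  have h1 := Scheme.Hom.etale_appLE (𝟙 X) hU hV h
  have h2 : (𝟙 X : X ⟶ X).appLE U V h = X.presheaf.map (homOfLE h).op := by
    change (𝟙 X : X ⟶ X).app U ≫ X.presheaf.map (homOfLE h).op = _
    rw [Scheme.Hom.id_app]
    exact Category.id_comp _
  rw [h2] at h1
  exact h1

theorem eq_of_two {V W₁ W₂ : X.Opens} (h₁ : W₁ ≤ V) (h₂ : W₂ ≤ V) (hc : V ≤ W₁ ⊔ W₂)
    (s t : Γ(X, V)) (e₁ : rs h₁ s = rs h₁ t) (e₂ : rs h₂ s = rs h₂ t) : s = t :=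
  X.sheaf.eq_of_locally_eq₂ (homOfLE h₁) (homOfLE h₂) hc s t e₁ e₂

theorem glue_two {V W₁ W₂ : X.Opens} (h₁ : W₁ ≤ V) (h₂ : W₂ ≤ V) (hc : V ≤ W₁ ⊔ W₂)
    (s₁ : Γ(X, W₁)) (s₂ : Γ(X, W₂)) (he : rs (inf_le_left : W₁ ⊓ W₂ ≤ W₁) s₁ =
      rs (inf_le_right : W₁ ⊓ W₂ ≤ W₂) s₂) : ∃ s : Γ(X, V), rs h₁ s = s₁ ∧ rs h₂ s = s₂ := by
  obtain ⟨x, e1, e2⟩ : ∃ x : Γ(X, W₁ ⊔ W₂), rs le_sup_left x = s₁ ∧ rs le_sup_right x = s₂ :=
    ⟨(X.sheaf.objSupIsoProdEqLocus W₁ W₂).inv ⟨(s₁, s₂), he⟩,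
      X.sheaf.objSupIsoProdEqLocus_inv_fst W₁ W₂ ⟨(s₁, s₂), he⟩,
      X.sheaf.objSupIsoProdEqLocus_inv_snd W₁ W₂ ⟨(s₁, s₂), he⟩⟩
  refine ⟨rs hc x, ?_, ?_⟩
  · rw [rs_rs]
    exact e1
  · rw [rs_rs]
    exact e2

/-- compatibility of derivations with restriction -/
def Cm {U V : X.Opens} (h : V ≤ U) (d : Derivation ℤ Γ(X, U) Γ(X, U))
    (d' : Derivation ℤ Γ(X, V) Γ(X, V)) : Prop := ∀ x, d' (rs h x) = rs h (d x)

variable {U V W : X.Opens} {d : Derivation ℤ Γ(X, U) Γ(X, U)} {d' : Derivation ℤ Γ(X, V) Γ(X, V)}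
  {d'' : Derivation ℤ Γ(X, W) Γ(X, W)}

theorem cm_exists (hU : IsAffineOpen U) (hV : IsAffineOpen V) (h : V ≤ U)
    (d : Derivation ℤ Γ(X, U) Γ(X, U)) : ∃ d', Cm h d d' :=
  deriv_exists _ (rs_etale hU hV h) d

theorem cm_trans (h : V ≤ U) (h' : W ≤ V) (a : Cm h d d') (b : Cm h' d' d'') :
    Cm (h'.trans h) d d'' := by
  intro x
  rw [← rs_rs h h', b, a, rs_rs]

theorem cm_of (hU : IsAffineOpen U) (hV : IsAffineOpen V) (h : V ≤ U) (h' : W ≤ V)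
    (a : Cm h d d') (b : Cm (h'.trans h) d d'') : Cm h' d' d'' := by
  intro x
  refine deriv_unique (rs h) (rs_etale hU hV h) (rs h') d' d'' (fun y => ?_) x
  rw [rs_rs, b, a, rs_rs]

theorem cover_inf {U₁ U₂ : X.Opens} (hcov : U₁ ⊔ U₂ = ⊤) (V : X.Opens) :
    V ≤ (V ⊓ U₁) ⊔ (V ⊓ U₂) := by
  rw [← inf_sup_left, hcov, inf_top_eq]

/-- the derivation of the sections over an affine open -/
theorem local_exists
    (haff : ∀ U V : X.Opens, IsAffineOpen U → IsAffineOpen V → IsAffineOpen (U ⊓ V))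
    {U₁ U₂ UL : X.Opens} (hU₁ : IsAffineOpen U₁) (hU₂ : IsAffineOpen U₂) (hUL : IsAffineOpen UL)
    (hcov : U₁ ⊔ U₂ = ⊤) (hL : U₁ ⊓ U₂ ≤ UL) (hL1 : UL ≤ U₁) (hL2 : UL ≤ U₂)
    (d₁ : Derivation ℤ Γ(X, U₁) Γ(X, U₁)) (d₂ : Derivation ℤ Γ(X, U₂) Γ(X, U₂))
    (dL : Derivation ℤ Γ(X, UL) Γ(X, UL)) (c1 : Cm hL1 d₁ dL) (c2 : Cm hL2 d₂ dL)
    (V : X.Opens) (hV : IsAffineOpen V) :
    ∃ δ : Derivation ℤ Γ(X, V) Γ(X, V), ∀ (W : X.Opens) (_ : IsAffineOpen W) (hWV : W ≤ V)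
      (δW : Derivation ℤ Γ(X, W) Γ(X, W)), (∀ h : W ≤ U₁, Cm h d₁ δW → Cm hWV δ δW) ∧
      (∀ h : W ≤ U₂, Cm h d₂ δW → Cm hWV δ δW) := by
  have hW₁ := haff V U₁ hV hU₁
  have hW₂ := haff V U₂ hV hU₂
  have hW₁₂ := haff _ _ hW₁ hW₂
  have l1 : V ⊓ U₁ ≤ V := inf_le_left
  have l2 : V ⊓ U₂ ≤ V := inf_le_left
  have m1 : V ⊓ U₁ ≤ U₁ := inf_le_right
  have m2 : V ⊓ U₂ ≤ U₂ := inf_le_right
  have n1 : (V ⊓ U₁) ⊓ (V ⊓ U₂) ≤ V ⊓ U₁ := inf_le_left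
  have n2 : (V ⊓ U₁) ⊓ (V ⊓ U₂) ≤ V ⊓ U₂ := inf_le_right
  have nL : (V ⊓ U₁) ⊓ (V ⊓ U₂) ≤ UL := (le_inf (n1.trans m1) (n2.trans m2)).trans hL
  have hc := cover_inf hcov V
  obtain ⟨e₁, he₁⟩ := cm_exists hU₁ hW₁ m1 d₁
  obtain ⟨e₂, he₂⟩ := cm_exists hU₂ hW₂ m2 d₂
  obtain ⟨e₁₂, he₁₂⟩ := cm_exists hUL hW₁₂ nL dL
  have f1 : Cm n1 e₁ e₁₂ := cm_of hU₁ hW₁ m1 n1 he₁ (cm_trans hL1 nL c1 he₁₂)
  have f2 : Cm n2 e₂ e₁₂ := cm_of hU₂ hW₂ m2 n2 he₂ (cm_trans hL2 nL c2 he₁₂)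
  have key : ∀ x : Γ(X, V), ∃ y : Γ(X, V), rs l1 y = e₁ (rs l1 x) ∧ rs l2 y = e₂ (rs l2 x) := by
    intro x
    apply glue_two l1 l2 hc
    rw [← f1, ← f2, rs_rs, rs_rs]
  choose y hy1 hy2 using key
  have hadd : ∀ a b, y (a + b) = y a + y b := by
    intro a b
    refine eq_of_two l1 l2 hc _ _ ?_ ?_
    · rw [hy1, map_add, map_add, map_add, hy1, hy1]
    · rw [hy2, map_add, map_add, map_add, hy2, hy2]
  have hmul : ∀ a b, y (a * b) = a • y b + b • y a := by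
    intro a b
    refine eq_of_two l1 l2 hc _ _ ?_ ?_
    · rw [hy1, map_mul, Derivation.leibniz, map_add, smul_eq_mul, smul_eq_mul, smul_eq_mul,
        smul_eq_mul, map_mul, map_mul, hy1, hy1]
    · rw [hy2, map_mul, Derivation.leibniz, map_add, smul_eq_mul, smul_eq_mul, smul_eq_mul,
        smul_eq_mul, map_mul, map_mul, hy2, hy2]
  refine ⟨Derivation.mk' (AddMonoidHom.mk' y hadd).toIntLinearMap hmul, ?_⟩
  intro W hW hWV δW
  constructor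
  · intro h hcm x
    have g1 : W ≤ V ⊓ U₁ := le_inf hWV h
    have f3 : Cm g1 e₁ δW := cm_of hU₁ hW₁ m1 g1 he₁ hcm
    change δW (rs hWV x) = rs hWV (y x)
    rw [← rs_rs l1 g1, f3, ← hy1, rs_rs]
  · intro h hcm x
    have g1 : W ≤ V ⊓ U₂ := le_inf hWV h
    have f3 : Cm g1 e₂ δW := cm_of hU₂ hW₂ m2 g1 he₂ hcm
    change δW (rs hWV x) = rs hWV (y x)
    rw [← rs_rs l2 g1, f3, ← hy2, rs_rs]

/-- compatible derivations on all affine opens -/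
theorem global
    (haff : ∀ U V : X.Opens, IsAffineOpen U → IsAffineOpen V → IsAffineOpen (U ⊓ V))
    {U₁ U₂ UL : X.Opens} (hU₁ : IsAffineOpen U₁) (hU₂ : IsAffineOpen U₂) (hUL : IsAffineOpen UL)
    (hcov : U₁ ⊔ U₂ = ⊤) (hL : U₁ ⊓ U₂ ≤ UL) (hL1 : UL ≤ U₁) (hL2 : UL ≤ U₂)
    (d₁ : Derivation ℤ Γ(X, U₁) Γ(X, U₁)) (d₂ : Derivation ℤ Γ(X, U₂) Γ(X, U₂))
    (dL : Derivation ℤ Γ(X, UL) Γ(X, UL)) (c1 : Cm hL1 d₁ dL) (c2 : Cm hL2 d₂ dL) :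
    ∃ δ : ∀ V : X.Opens, IsAffineOpen V → Derivation ℤ Γ(X, V) Γ(X, V),
      (∀ (V V' : X.Opens) (hV : IsAffineOpen V) (hV' : IsAffineOpen V') (h : V' ≤ V),
        Cm h (δ V hV) (δ V' hV')) ∧
      (∀ a b : Γ(X, ⊤), d₁ (rs le_top a) = rs le_top b → d₂ (rs le_top a) = rs le_top b →
        ∀ (V : X.Opens) (hV : IsAffineOpen V), δ V hV (rs le_top a) = rs le_top b) := by
  have hex := local_exists haff hU₁ hU₂ hUL hcov hL hL1 hL2 d₁ d₂ dL c1 c2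
  choose δ hδ using hex
  refine ⟨δ, ?_, ?_⟩
  · intro V V' hV hV' h x
    have l1 : V' ⊓ U₁ ≤ V' := inf_le_left
    have l2 : V' ⊓ U₂ ≤ V' := inf_le_left
    have m1 : V' ⊓ U₁ ≤ U₁ := inf_le_right
    have m2 : V' ⊓ U₂ ≤ U₂ := inf_le_right
    have hW₁ := haff V' U₁ hV' hU₁
    have hW₂ := haff V' U₂ hV' hU₂
    refine eq_of_two l1 l2 (cover_inf hcov V') _ _ ?_ ?_
    · obtain ⟨e₁, he₁⟩ := cm_exists hU₁ hW₁ m1 d₁
      have f1 : Cm l1 (δ V' hV') e₁ := (hδ V' hV' _ hW₁ l1 e₁).1 m1 he₁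
      have f2 : Cm (l1.trans h) (δ V hV) e₁ := (hδ V hV _ hW₁ (l1.trans h) e₁).1 m1 he₁
      rw [← f1, rs_rs, rs_rs, f2]
    · obtain ⟨e₂, he₂⟩ := cm_exists hU₂ hW₂ m2 d₂
      have f1 : Cm l2 (δ V' hV') e₂ := (hδ V' hV' _ hW₂ l2 e₂).2 m2 he₂
      have f2 : Cm (l2.trans h) (δ V hV) e₂ := (hδ V hV _ hW₂ (l2.trans h) e₂).2 m2 he₂
      rw [← f1, rs_rs, rs_rs, f2]
  · intro a b h1 h2 V hV
    have l1 : V ⊓ U₁ ≤ V := inf_le_left
    have l2 : V ⊓ U₂ ≤ V := inf_le_left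
    have m1 : V ⊓ U₁ ≤ U₁ := inf_le_right
    have m2 : V ⊓ U₂ ≤ U₂ := inf_le_right
    have hW₁ := haff V U₁ hV hU₁
    have hW₂ := haff V U₂ hV hU₂
    refine eq_of_two l1 l2 (cover_inf hcov V) _ _ ?_ ?_
    · obtain ⟨e₁, he₁⟩ := cm_exists hU₁ hW₁ m1 d₁
      have f1 : Cm l1 (δ V hV) e₁ := (hδ V hV _ hW₁ l1 e₁).1 m1 he₁
      have f3 : rs l1 (rs le_top a) = rs m1 (rs le_top a) := by rw [rs_rs, rs_rs]
      rw [← f1, f3, he₁, h1, rs_rs, rs_rs]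
    · obtain ⟨e₂, he₂⟩ := cm_exists hU₂ hW₂ m2 d₂
      have f1 : Cm l2 (δ V hV) e₂ := (hδ V hV _ hW₂ l2 e₂).2 m2 he₂
      have f3 : rs l2 (rs le_top a) = rs m2 (rs le_top a) := by rw [rs_rs, rs_rs]
      rw [← f1, f3, he₂, h2, rs_rs, rs_rs]

end

/-! ### sections over charts -/

section

variable {X : Scheme.{0}} {A B : Type} [CommRing A] [CommRing B]

/-- sections over an open which contains the image of a chart, as elements of the ring of the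
chart -/
noncomputable def kp (j : Spec (.of A) ⟶ X) (U : X.Opens) (h : ⊤ ≤ j ⁻¹ᵁ U) : Γ(X, U) →+* A :=
  (j.appLE U ⊤ h ≫ (Scheme.ΓSpecIso (.of A)).hom).hom

theorem kp_rs (j : Spec (.of A) ⟶ X) {U V : X.Opens} (hVU : V ≤ U) (h : ⊤ ≤ j ⁻¹ᵁ U)
    (h' : ⊤ ≤ j ⁻¹ᵁ V) (x : Γ(X, U)) : kp j V h' (rs hVU x) = kp j U h x := by
  have h1 : X.presheaf.map (homOfLE hVU).op ≫ j.appLE V ⊤ h' = j.appLE U ⊤ h :=
    Scheme.Hom.map_appLE _ _ _
  unfold kp rs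
  rw [← h1]
  rfl

theorem kp_comp (j : Spec (.of A) ⟶ X) (φ : A →+* B) (j' : Spec (.of B) ⟶ X)
    (hj' : Spec.map (CommRingCat.ofHom φ) ≫ j = j') (U : X.Opens) (h : ⊤ ≤ j ⁻¹ᵁ U)
    (h' : ⊤ ≤ j' ⁻¹ᵁ U) (x : Γ(X, U)) : kp j' U h' x = φ (kp j U h x) := by
  subst hj'
  have h1 : j.appLE U ⊤ h ≫ (Spec.map (CommRingCat.ofHom φ)).appTop =
      (Spec.map (CommRingCat.ofHom φ) ≫ j).appLE U ⊤ h' := by
    have h2 := Scheme.Hom.appLE_comp_appLE (Spec.map (CommRingCat.ofHom φ)) j U ⊤ ⊤ h le_rfl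
    rw [← h2]
    congr 1
  unfold kp
  rw [← h1, Category.assoc, Scheme.ΓSpecIso_naturality]
  rfl

theorem kp_bijective (j : Spec (.of A) ⟶ X) [IsOpenImmersion j] (h : ⊤ ≤ j ⁻¹ᵁ j.opensRange) :
    Function.Bijective (kp j j.opensRange h) := by
  have h1 : IsIso (j.app j.opensRange) := Scheme.Hom.isIso_app _ _ le_rfl
  have h2 : IsIso (j.appLE j.opensRange ⊤ h) := by
    unfold Scheme.Hom.appLE
    have h3 : (homOfLE h) = eqToHom (le_antisymm h le_top) := rfl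
    rw [h3]
    infer_instance
  have h4 : IsIso (j.appLE j.opensRange ⊤ h ≫ (Scheme.ΓSpecIso (.of A)).hom) := inferInstance
  exact ConcreteCategory.bijective_of_isIso (j.appLE j.opensRange ⊤ h ≫ (Scheme.ΓSpecIso (.of A)).hom)

/-- the scalars -/
noncomputable def gs {R : Type} [CommRing R] (f : X ⟶ Spec (.of R)) (r : R) : Γ(X, ⊤) :=
  ((Scheme.ΓSpecIso (.of R)).inv ≫ f.appTop).hom r

theorem kp_gs {R : Type} [CommRing R] (f : X ⟶ Spec (.of R)) (j : Spec (.of A) ⟶ X) (s : R →+* A)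
    (hs : j ≫ f = Spec.map (CommRingCat.ofHom s)) (r : R) : kp j ⊤ le_rfl (gs f r) = s r := by
  have h1 : f.appTop ≫ j.appTop = (Spec.map (CommRingCat.ofHom s)).appTop := by
    rw [← hs]
    rfl
  have h2 : j.appLE ⊤ ⊤ le_rfl = j.appTop := (Scheme.Hom.app_eq_appLE _).symm
  have h3 : ((Scheme.ΓSpecIso (.of R)).inv ≫ f.appTop) ≫ (j.appLE ⊤ ⊤ le_rfl ≫
      (Scheme.ΓSpecIso (.of A)).hom) = CommRingCat.ofHom s := by
    rw [h2, Category.assoc, ← Category.assoc f.appTop, h1, Scheme.ΓSpecIso_naturality,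
      Iso.inv_hom_id_assoc]
  have h4 := congrArg (fun t => t.hom r) h3
  exact h4

/-! ### derivations read off in charts -/

/-- a derivation of the ring of a chart as a derivation of the sections over its image -/
theorem push (j : Spec (.of A) ⟶ X) [IsOpenImmersion j] (h : ⊤ ≤ j ⁻¹ᵁ j.opensRange)
    (D : Derivation ℤ A A) : ∃ d : Derivation ℤ Γ(X, j.opensRange) Γ(X, j.opensRange),
      ∀ x, kp j _ h (d x) = D (kp j _ h x) := by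
  have hb := kp_bijective j h
  let e := RingEquiv.ofBijective _ hb
  have he : (e.symm : A →+* Γ(X, j.opensRange)).Etale :=
    RingHom.Etale.of_bijective e.symm.bijective
  obtain ⟨d, hd⟩ := deriv_exists (e.symm : A →+* Γ(X, j.opensRange)) he D
  refine ⟨d, fun x => ?_⟩
  have h1 := hd (e x)
  have h2 : (e.symm : A →+* Γ(X, j.opensRange)) (e x) = x := e.symm_apply_apply x
  rw [h2] at h1
  rw [h1]
  exact e.apply_symm_apply (D (e x))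

/-- a derivation of the sections over the image of a chart as a derivation of the ring of the
chart -/
theorem pull (j : Spec (.of A) ⟶ X) [IsOpenImmersion j] (h : ⊤ ≤ j ⁻¹ᵁ j.opensRange)
    (d : Derivation ℤ Γ(X, j.opensRange) Γ(X, j.opensRange)) : ∃ D : Derivation ℤ A A,
      ∀ x, D (kp j _ h x) = kp j _ h (d x) :=
  deriv_exists _ (RingHom.Etale.of_bijective (kp_bijective j h)) d

theorem top_le_range (j : Spec (.of A) ⟶ X) [IsOpenImmersion j] : ⊤ ≤ j ⁻¹ᵁ j.opensRange :=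
  (Scheme.Hom.preimage_opensRange j).ge

theorem range_le (j : Spec (.of A) ⟶ X) [IsOpenImmersion j] (φ : A →+* B)
    (j' : Spec (.of B) ⟶ X) [IsOpenImmersion j'] (hj' : Spec.map (CommRingCat.ofHom φ) ≫ j = j') :
    j'.opensRange ≤ j.opensRange := by
  subst hj'
  rintro _ ⟨q, rfl⟩
  exact ⟨Spec.map (CommRingCat.ofHom φ) q, rfl⟩

theorem top_le_range' (j : Spec (.of A) ⟶ X) [IsOpenImmersion j] (φ : A →+* B)
    (j' : Spec (.of B) ⟶ X) (hj' : Spec.map (CommRingCat.ofHom φ) ≫ j = j') :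
    ⊤ ≤ j' ⁻¹ᵁ j.opensRange := by
  subst hj'
  intro q _
  exact ⟨Spec.map (CommRingCat.ofHom φ) q, rfl⟩

/-- compatible derivations of the rings of charts are compatible on sections -/
theorem push_cm (j : Spec (.of A) ⟶ X) [IsOpenImmersion j] (φ : A →+* B)
    (j' : Spec (.of B) ⟶ X) [IsOpenImmersion j'] (hj' : Spec.map (CommRingCat.ofHom φ) ≫ j = j')
    (D : Derivation ℤ A A) (D' : Derivation ℤ B B) (hc : ∀ w, D' (φ w) = φ (D w))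
    (h : ⊤ ≤ j ⁻¹ᵁ j.opensRange) (h' : ⊤ ≤ j' ⁻¹ᵁ j'.opensRange)
    (hle : j'.opensRange ≤ j.opensRange)
    (d : Derivation ℤ Γ(X, j.opensRange) Γ(X, j.opensRange))
    (d' : Derivation ℤ Γ(X, j'.opensRange) Γ(X, j'.opensRange))
    (hd : ∀ x, kp j _ h (d x) = D (kp j _ h x)) (hd' : ∀ x, kp j' _ h' (d' x) = D' (kp j' _ h' x)) :
    Cm hle d d' := by
  intro x
  have h3 := top_le_range' j φ j' hj'
  apply (kp_bijective j' h').1
  rw [hd', kp_rs j' hle h3 h', kp_rs j' hle h3 h', kp_comp j φ j' hj' _ h h3, hc,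
    kp_comp j φ j' hj' _ h h3, hd]

/-- the converse -/
theorem pull_cm (j : Spec (.of A) ⟶ X) [IsOpenImmersion j] (φ : A →+* B)
    (j' : Spec (.of B) ⟶ X) [IsOpenImmersion j'] (hj' : Spec.map (CommRingCat.ofHom φ) ≫ j = j')
    (D : Derivation ℤ A A) (D' : Derivation ℤ B B)
    (h : ⊤ ≤ j ⁻¹ᵁ j.opensRange) (h' : ⊤ ≤ j' ⁻¹ᵁ j'.opensRange)
    (hle : j'.opensRange ≤ j.opensRange)
    (d : Derivation ℤ Γ(X, j.opensRange) Γ(X, j.opensRange))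
    (d' : Derivation ℤ Γ(X, j'.opensRange) Γ(X, j'.opensRange))
    (hd : ∀ x, D (kp j _ h x) = kp j _ h (d x)) (hd' : ∀ x, D' (kp j' _ h' x) = kp j' _ h' (d' x))
    (hcm : Cm hle d d') (w : A) : D' (φ w) = φ (D w) := by
  have h3 := top_le_range' j φ j' hj'
  obtain ⟨x, rfl⟩ := (kp_bijective j h).2 w
  rw [← kp_comp j φ j' hj' _ h h3, ← kp_rs j' hle h3 h', hd', hcm, hd, kp_rs j' hle h3 h',
    kp_comp j φ j' hj' _ h h3]

/-- the scalars over the image of a chart -/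
theorem kp_gs' {R : Type} [CommRing R] (f : X ⟶ Spec (.of R)) (j : Spec (.of A) ⟶ X) (s : R →+* A)
    (hs : j ≫ f = Spec.map (CommRingCat.ofHom s)) (U : X.Opens) (h : ⊤ ≤ j ⁻¹ᵁ U) (r : R) :
    kp j U h (rs le_top (gs f r)) = s r := by
  rw [kp_rs j le_top le_rfl h]
  exact kp_gs f j s hs r

theorem isAffineOpen_range (j : Spec (.of A) ⟶ X) [IsOpenImmersion j] :
    IsAffineOpen j.opensRange := isAffineOpen_opensRange j

/-- compatible derivations of two charts give compatible derivations on all affine opens -/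
theorem from_charts {R A₁ A₂ A₁₂ : Type} [CommRing R] [CommRing A₁] [CommRing A₂] [CommRing A₁₂]
    (haff : ∀ U V : X.Opens, IsAffineOpen U → IsAffineOpen V → IsAffineOpen (U ⊓ V))
    (f : X ⟶ Spec (.of R)) (D : Derivation ℤ R R)
    (j₁ : Spec (.of A₁) ⟶ X) (j₂ : Spec (.of A₂) ⟶ X) (jL : Spec (.of A₁₂) ⟶ X)
    [IsOpenImmersion j₁] [IsOpenImmersion j₂] [IsOpenImmersion jL]
    (s₁ : R →+* A₁) (s₂ : R →+* A₂) (r₁ : A₁ →+* A₁₂) (r₂ : A₂ →+* A₁₂)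
    (h₁ : j₁ ≫ f = Spec.map (CommRingCat.ofHom s₁)) (h₂ : j₂ ≫ f = Spec.map (CommRingCat.ofHom s₂))
    (k₁ : Spec.map (CommRingCat.ofHom r₁) ≫ j₁ = jL) (k₂ : Spec.map (CommRingCat.ofHom r₂) ≫ j₂ = jL)
    (cov : ∀ p : X, (∃ q, j₁ q = p) ∨ ∃ q, j₂ q = p)
    (int : ∀ p : X, (∃ q, j₁ q = p) → (∃ q, j₂ q = p) → ∃ q, jL q = p)
    (D1 : Derivation ℤ A₁ A₁) (D2 : Derivation ℤ A₂ A₂) (DL : Derivation ℤ A₁₂ A₁₂)
    (e1 : ∀ r, D1 (s₁ r) = s₁ (D r)) (e2 : ∀ r, D2 (s₂ r) = s₂ (D r))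
    (c1 : ∀ w, DL (r₁ w) = r₁ (D1 w)) (c2 : ∀ w, DL (r₂ w) = r₂ (D2 w)) :
    ∃ δ : ∀ V : X.Opens, IsAffineOpen V → Derivation ℤ Γ(X, V) Γ(X, V),
      (∀ (V V' : X.Opens) (hV : IsAffineOpen V) (hV' : IsAffineOpen V') (h : V' ≤ V),
        Cm h (δ V hV) (δ V' hV')) ∧
      (∀ (r : R) (V : X.Opens) (hV : IsAffineOpen V),
        δ V hV (rs le_top (gs f r)) = rs le_top (gs f (D r))) := by
  obtain ⟨d₁, hd₁⟩ := push j₁ (top_le_range j₁) D1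
  obtain ⟨d₂, hd₂⟩ := push j₂ (top_le_range j₂) D2
  obtain ⟨dL, hdL⟩ := push jL (top_le_range jL) DL
  have l1 : jL.opensRange ≤ j₁.opensRange := range_le j₁ r₁ jL k₁
  have l2 : jL.opensRange ≤ j₂.opensRange := range_le j₂ r₂ jL k₂
  have hcov : j₁.opensRange ⊔ j₂.opensRange = ⊤ := by
    rw [eq_top_iff]
    intro p _
    rcases cov p with h | h
    · exact Or.inl h
    · exact Or.inr h
  have hL : j₁.opensRange ⊓ j₂.opensRange ≤ jL.opensRange := by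
    rintro p ⟨hp1, hp2⟩
    exact int p hp1 hp2
  have cm1 : Cm l1 d₁ dL := push_cm j₁ r₁ jL k₁ D1 DL c1 _ _ l1 d₁ dL hd₁ hdL
  have cm2 : Cm l2 d₂ dL := push_cm j₂ r₂ jL k₂ D2 DL c2 _ _ l2 d₂ dL hd₂ hdL
  obtain ⟨δ, hδ, hδ'⟩ := global haff (isAffineOpen_range j₁) (isAffineOpen_range j₂)
    (isAffineOpen_range jL) hcov hL l1 l2 d₁ d₂ dL cm1 cm2
  refine ⟨δ, hδ, fun r V hV => hδ' _ _ ?_ ?_ V hV⟩
  · apply (kp_bijective j₁ (top_le_range j₁)).1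
    rw [hd₁, kp_gs' f j₁ s₁ h₁, kp_gs' f j₁ s₁ h₁, e1]
  · apply (kp_bijective j₂ (top_le_range j₂)).1
    rw [hd₂, kp_gs' f j₂ s₂ h₂, kp_gs' f j₂ s₂ h₂, e2]

/-- compatible derivations on all affine opens give compatible derivations of charts -/
theorem to_charts {R A₁ A₂ A₁₂ : Type} [CommRing R] [CommRing A₁] [CommRing A₂] [CommRing A₁₂]
    (f : X ⟶ Spec (.of R)) (D : Derivation ℤ R R)
    (j₁ : Spec (.of A₁) ⟶ X) (j₂ : Spec (.of A₂) ⟶ X) (jL : Spec (.of A₁₂) ⟶ X)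
    [IsOpenImmersion j₁] [IsOpenImmersion j₂] [IsOpenImmersion jL]
    (s₁ : R →+* A₁) (s₂ : R →+* A₂) (r₁ : A₁ →+* A₁₂) (r₂ : A₂ →+* A₁₂)
    (h₁ : j₁ ≫ f = Spec.map (CommRingCat.ofHom s₁)) (h₂ : j₂ ≫ f = Spec.map (CommRingCat.ofHom s₂))
    (k₁ : Spec.map (CommRingCat.ofHom r₁) ≫ j₁ = jL) (k₂ : Spec.map (CommRingCat.ofHom r₂) ≫ j₂ = jL)
    (δ : ∀ V : X.Opens, IsAffineOpen V → Derivation ℤ Γ(X, V) Γ(X, V))
    (hδ : ∀ (V V' : X.Opens) (hV : IsAffineOpen V) (hV' : IsAffineOpen V') (h : V' ≤ V),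
        Cm h (δ V hV) (δ V' hV'))
    (hδ' : ∀ (r : R) (V : X.Opens) (hV : IsAffineOpen V),
        δ V hV (rs le_top (gs f r)) = rs le_top (gs f (D r))) :
    ∃ (D1 : Derivation ℤ A₁ A₁) (D2 : Derivation ℤ A₂ A₂) (DL : Derivation ℤ A₁₂ A₁₂),
      (∀ r, D1 (s₁ r) = s₁ (D r)) ∧ (∀ r, D2 (s₂ r) = s₂ (D r)) ∧
      (∀ w, DL (r₁ w) = r₁ (D1 w)) ∧ (∀ w, DL (r₂ w) = r₂ (D2 w)) := by
  obtain ⟨D1, hd₁⟩ := pull j₁ (top_le_range j₁) (δ _ (isAffineOpen_range j₁))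
  obtain ⟨D2, hd₂⟩ := pull j₂ (top_le_range j₂) (δ _ (isAffineOpen_range j₂))
  obtain ⟨DL, hdL⟩ := pull jL (top_le_range jL) (δ _ (isAffineOpen_range jL))
  have l1 : jL.opensRange ≤ j₁.opensRange := range_le j₁ r₁ jL k₁
  have l2 : jL.opensRange ≤ j₂.opensRange := range_le j₂ r₂ jL k₂
  refine ⟨D1, D2, DL, fun r => ?_, fun r => ?_, ?_, ?_⟩
  · rw [← kp_gs' f j₁ s₁ h₁ _ (top_le_range j₁) r, hd₁, hδ', kp_gs' f j₁ s₁ h₁]
  · rw [← kp_gs' f j₂ s₂ h₂ _ (top_le_range j₂) r, hd₂, hδ', kp_gs' f j₂ s₂ h₂]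
  · exact pull_cm j₁ r₁ jL k₁ D1 DL _ _ l1 _ _ hd₁ hdL (hδ _ _ _ _ l1)
  · exact pull_cm j₂ r₂ jL k₂ D2 DL _ _ l2 _ _ hd₂ hdL (hδ _ _ _ _ l2)

end

/-! ### transport -/

open Pool.Agent.H927.MG

theorem inf_affine {X : Scheme.{0}} {K : Type} [Field K] (f : X ⟶ Spec (.of K)) [IsSeparated f]
    (U V : X.Opens) (hU : IsAffineOpen U) (hV : IsAffineOpen V) : IsAffineOpen (U ⊓ V) := by
  have h1 : IsSeparated (terminal.from X) := by
    rw [← terminal.comp_from f]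
    infer_instance
  have h2 : IsClosedImmersion (pullback.diagonal (terminal.from X)) := inferInstance
  exact hU.inf hV

theorem transport_aux {K A₁ A₂ A₁₂ B₁ B₂ B₁₂ : Type} [Field K] [CommRing A₁] [CommRing A₂]
    [CommRing A₁₂] [CommRing B₁] [CommRing B₂] [CommRing B₁₂] {X Y : Scheme.{0}}
    {f : X ⟶ Spec (.of K)} {g : Y ⟶ Spec (.of K)} [IsSeparated f] (D : Derivation ℤ K K)
    (c : Charts K A₁ A₂ A₁₂ f) (b : Charts K B₁ B₂ B₁₂ g) (e : Y ≅ X) (he : e.hom ≫ f = g)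
    (oc : IsOpenImmersion (Spec.map (CommRingCat.ofHom c.r₁)))
    (ob : IsOpenImmersion (Spec.map (CommRingCat.ofHom b.r₁)))
    (h : ∃ (D1 : Derivation ℤ A₁ A₁) (D2 : Derivation ℤ A₂ A₂) (DL : Derivation ℤ A₁₂ A₁₂),
      (∀ r, D1 (c.s₁ r) = c.s₁ (D r)) ∧ (∀ r, D2 (c.s₂ r) = c.s₂ (D r)) ∧
      (∀ w, DL (c.r₁ w) = c.r₁ (D1 w)) ∧ (∀ w, DL (c.r₂ w) = c.r₂ (D2 w))) :
    ∃ (D1 : Derivation ℤ B₁ B₁) (D2 : Derivation ℤ B₂ B₂) (DL : Derivation ℤ B₁₂ B₁₂),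
      (∀ r, D1 (b.s₁ r) = b.s₁ (D r)) ∧ (∀ r, D2 (b.s₂ r) = b.s₂ (D r)) ∧
      (∀ w, DL (b.r₁ w) = b.r₁ (D1 w)) ∧ (∀ w, DL (b.r₂ w) = b.r₂ (D2 w)) := by
  obtain ⟨D1, D2, DL, e1, e2, c1, c2⟩ := h
  have int : ∀ p : X, (∃ q, c.j₁ q = p) → (∃ q, c.j₂ q = p) →
      ∃ q, (Spec.map (CommRingCat.ofHom c.r₁) ≫ c.j₁) q = p := by
    rintro p ⟨q₁, h1⟩ ⟨q₂, h2⟩
    obtain ⟨q, hq1, hq2⟩ := Scheme.exists_preimage_of_isPullback c.pb q₁ q₂ (h1.trans h2.symm)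
    exact ⟨q, by rw [← h1, ← hq1]; rfl⟩
  obtain ⟨δ, hδ, hδ'⟩ := from_charts (inf_affine f) f D c.j₁ c.j₂
    (Spec.map (CommRingCat.ofHom c.r₁) ≫ c.j₁) c.s₁ c.s₂ c.r₁ c.r₂ c.h₁ c.h₂ rfl c.pb.w.symm
    c.cov int D1 D2 DL e1 e2 c1 c2
  refine to_charts f D (b.j₁ ≫ e.hom) (b.j₂ ≫ e.hom)
    (Spec.map (CommRingCat.ofHom b.r₁) ≫ b.j₁ ≫ e.hom) b.s₁ b.s₂ b.r₁ b.r₂ ?_ ?_ rfl ?_ δ hδ hδ'
  · rw [Category.assoc, he, b.h₁]
  · rw [Category.assoc, he, b.h₂]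
  · rw [← Category.assoc, ← b.pb.w, Category.assoc]

/-- DT -/
theorem transport : S_transport := by
  intro K _ D G G' e he hD
  obtain ⟨⟨D1, D2, DL, h1, h2, c1, c2⟩⟩ := hD
  have hp : IsProper (crvMap G') := crv_proper G'
  have hs : IsSeparated (crvMap G') := inferInstance
  obtain ⟨E1, E2, EL, h1', h2', c1', c2'⟩ := transport_aux D (crvCharts G') (crvCharts G) e he
    (open_inc G'.d1) (open_inc G.d1) ⟨D1, D2, DL, h1, h2, c1, c2⟩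
  exact ⟨⟨E1, E2, EL, h1', h2', c1', c2'⟩⟩

end Pool.Agent.H200.MG927
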